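import Pool.Agent.H67.PP.MALCEV2

/-!
# Finite coverings of closed affine manifolds

A closed affine manifold of positive dimension has finite coverings of arbitrarily large degree:
its holonomy group is infinite, and it is a finitely generated linear group, so Malcev's theorem
applies.
-/

set_option autoImplicit false

open Set Filter Topology

namespace Pool.Agent.TH711.SV

/-- The affine space `ℝⁿ`. -/
abbrev En (n : ℕ) : Type := EuclideanSpace ℝ (Fin n)

/-- A closed connected affine manifold `M = Γ \ X` of dimension `n`, given by a connected covering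
space `X` (for example the universal one), the group `Γ` of deck transformations, the developing
map and the affine holonomy. -/
structure DevMfd (n : ℕ) where
  /-- the covering space -/
  X : Type
  /-- the group of deck transformations -/
  Γ : Type
  [top : TopologicalSpace X]
  [t2 : T2Space X]
  [conn : ConnectedSpace X]
  [grp : Group Γ]
  [act : MulAction Γ X]
  /-- the developing map -/
  dev : X → En n
  /-- the affine holonomy -/
  hol : Γ →* (En n ≃ᵃ[ℝ] En n)
  /-- the group acts by homeomorphisms -/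
  cont : ∀ γ : Γ, Continuous fun x : X => γ • x
  /-- the action is free -/
  free : ∀ (γ : Γ) (x : X), γ • x = x → γ = 1
  /-- the action is properly discontinuous -/
  proper : ∀ K : Set X, IsCompact K → {γ : Γ | ∃ x ∈ K, γ • x ∈ K}.Finite
  /-- the quotient is compact -/
  cocompact : ∃ K : Set X, IsCompact K ∧ ∀ x : X, ∃ γ : Γ, ∃ k ∈ K, γ • k = x
  /-- the developing map is a local homeomorphism -/
  loc : IsLocalHomeomorph dev
  /-- the developing map is equivariant -/
  equivariant : ∀ (γ : Γ) (x : X), dev (γ • x) = hol γ (dev x)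

attribute [instance] DevMfd.top DevMfd.t2 DevMfd.conn DevMfd.grp
  DevMfd.act

variable {n : ℕ}

namespace DevMfd

variable (M : DevMfd n)

lemma exists_cpt_nhd (x : M.X) : ∃ N ∈ 𝓝 x, IsCompact N := by
  obtain ⟨e, hx, he⟩ := M.loc x
  have h1 : e.target ∈ 𝓝 (e x) := e.open_target.mem_nhds (e.map_source hx)
  obtain ⟨K, hK, hKt, hKc⟩ := LocallyCompactSpace.local_compact_nhds (e x) e.target h1
  refine ⟨e.symm '' K, ?_, hKc.image_of_continuousOn (e.continuousOn_symm.mono hKt)⟩
  have h2 : e ⁻¹' K ∈ 𝓝 x := (e.continuousAt hx).preimage_mem_nhds hK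
  filter_upwards [h2, e.open_source.mem_nhds hx] with y hy hys
  exact ⟨e y, hy, e.left_inv hys⟩

instance : WeaklyLocallyCompactSpace M.X :=
  ⟨fun x => by obtain ⟨N, hN, hc⟩ := M.exists_cpt_nhd x; exact ⟨N, hc, hN⟩⟩

/-- The group of a closed affine manifold is finitely generated. -/
instance fg : Group.FG M.Γ := by
  classical
  obtain ⟨K, hK, hcov⟩ := M.cocompact
  obtain ⟨K', hK', hKK'⟩ := exists_compact_superset hK
  set U := interior K' with hU
  have hUo : IsOpen U := isOpen_interior
  have hS := M.proper K' hK'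
  set S := {γ : M.Γ | ∃ x ∈ K', γ • x ∈ K'} with hSdef
  set H := Subgroup.closure S with hH
  let A : Set M.X := {x | ∃ h ∈ H, h⁻¹ • x ∈ U}
  let B : Set M.X := {x | ∃ g : M.Γ, g ∉ H ∧ g⁻¹ • x ∈ U}
  have hAo : IsOpen A := by
    have : A = ⋃ h ∈ H, (fun x : M.X => h⁻¹ • x) ⁻¹' U := by
      ext x; simp [A]
    rw [this]
    exact isOpen_biUnion fun h _ => hUo.preimage (M.cont _)
  have hBo : IsOpen B := by
    have : B = ⋃ h : M.Γ, ⋃ _ : h ∉ H, (fun x : M.X => h⁻¹ • x) ⁻¹' U := by
      ext x; simp [B]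
    rw [this]
    exact isOpen_iUnion fun h => isOpen_iUnion fun _ => hUo.preimage (M.cont _)
  have hAB : Aᶜ = B := by
    ext x
    constructor
    · intro hx
      obtain ⟨γ, k, hk, rfl⟩ := hcov x
      refine ⟨γ, fun hγ => hx ⟨γ, hγ, ?_⟩, ?_⟩
      · simpa using hKK' hk
      · simpa using hKK' hk
    · rintro ⟨g, hg, hgx⟩ ⟨h, hh, hhx⟩
      apply hg
      have h1 : h⁻¹ * g ∈ S := by
        refine ⟨g⁻¹ • x, interior_subset hgx, ?_⟩
        rw [mul_smul, smul_inv_smul]
        exact interior_subset hhx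
      have h2 : h * (h⁻¹ * g) ∈ H := H.mul_mem hh (Subgroup.subset_closure h1)
      simpa using h2
  have hcl : IsClopen A := ⟨by rw [← isOpen_compl_iff, hAB]; exact hBo, hAo⟩
  obtain ⟨x0⟩ := (inferInstance : Nonempty M.X)
  obtain ⟨γ0, k0, hk0, hx0⟩ := hcov x0
  have hAne : A.Nonempty := ⟨k0, 1, H.one_mem, by simpa using hKK' hk0⟩
  have hAu : A = univ := hcl.eq_univ hAne
  have htop : H = ⊤ := by
    rw [eq_top_iff]
    intro g _
    by_contra hg
    have h1 : g • k0 ∈ B := ⟨g, hg, by simpa using hKK' hk0⟩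
    rw [← hAB, hAu] at h1
    exact h1 trivial
  rw [Group.fg_iff]
  exact ⟨S, htop, hS⟩

/-- The holonomy group of a closed affine manifold of positive dimension is infinite. -/
theorem infinite_range_hol (hn : 0 < n) : Infinite M.hol.range := by
  classical
  by_contra hfin
  rw [not_infinite_iff_finite] at hfin
  let _ : Fintype M.hol.range := Fintype.ofFinite M.hol.range
  -- an invariant strictly convex function
  let φ : En n → ℝ := fun p => ∑ g : M.hol.range, ‖g.1 p‖ ^ 2
  have hφc : Continuous φ := by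
    refine continuous_finsetSum _ fun g _ => ?_
    exact (g.1.toAffineMap.continuous_of_finiteDimensional.norm).pow 2
  have hφi : ∀ (γ : M.Γ) (p : En n), φ (M.hol γ p) = φ p := by
    intro γ p
    have h1 : φ (M.hol γ p) = ∑ g : M.hol.range, ‖(g * ⟨M.hol γ, ⟨γ, rfl⟩⟩ : M.hol.range).1 p‖ ^ 2 := rfl
    rw [h1]
    exact Fintype.sum_equiv (Equiv.mulRight (⟨M.hol γ, ⟨γ, rfl⟩⟩ : M.hol.range)) _ _ fun g => rfl
  have hpar : ∀ p v : En n, φ (p + v) + φ (p - v) = 2 * φ p +
      2 * ∑ g : M.hol.range, ‖(g.1.linear v : En n)‖ ^ 2 := by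
    intro p v
    simp only [φ]
    rw [← Finset.sum_add_distrib, Finset.mul_sum, Finset.mul_sum, ← Finset.sum_add_distrib]
    refine Finset.sum_congr rfl fun g _ => ?_
    have h1 : g.1 (p + v) = g.1 p + g.1.linear v := by
      have := g.1.toAffineMap.map_vadd p v
      simp only [vadd_eq_add, AffineEquiv.coe_toAffineMap, AffineEquiv.linear_toAffineMap,
        LinearEquiv.coe_coe] at this
      rw [add_comm p v, this, add_comm]
    have h2 : g.1 (p - v) = g.1 p - g.1.linear v := by
      have := g.1.toAffineMap.map_vadd p (-v)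
      simp only [vadd_eq_add, AffineEquiv.coe_toAffineMap, AffineEquiv.linear_toAffineMap,
        LinearEquiv.coe_coe, map_neg] at this
      rw [sub_eq_add_neg, add_comm p (-v), this, sub_eq_add_neg, add_comm]
    rw [h1, h2]
    have := parallelogram_law_with_norm ℝ (g.1 p) (g.1.linear v)
    nlinarith [this]
  -- its maximum on the manifold
  obtain ⟨K, hK, hcov⟩ := M.cocompact
  obtain ⟨x0⟩ := (inferInstance : Nonempty M.X)
  obtain ⟨γ0, k1, hk1, -⟩ := hcov x0
  obtain ⟨k0, hk0, hmax⟩ := hK.exists_isMaxOn ⟨k1, hk1⟩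
    (hφc.comp M.loc.continuous).continuousOn
  have hle : ∀ x : M.X, φ (M.dev x) ≤ φ (M.dev k0) := by
    intro x
    obtain ⟨γ, k, hk, rfl⟩ := hcov x
    rw [M.equivariant, hφi]
    exact hmax hk
  have hop : range M.dev ∈ 𝓝 (M.dev k0) :=
    M.loc.isOpenMap.isOpen_range.mem_nhds ⟨k0, rfl⟩
  obtain ⟨r, hr, hball⟩ := Metric.mem_nhds_iff.1 hop
  -- a small nonzero vector
  obtain ⟨v, hv0, hvr⟩ : ∃ v : En n, v ≠ 0 ∧ ‖v‖ < r := by
    refine ⟨EuclideanSpace.single ⟨0, hn⟩ (r / 2), ?_, ?_⟩
    · intro h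
      have := congrArg norm h
      rw [PiLp.norm_single, norm_zero, Real.norm_eq_abs, abs_of_pos (by linarith)] at this
      linarith
    · rw [PiLp.norm_single, Real.norm_eq_abs, abs_of_pos (by linarith)]
      linarith
  obtain ⟨x1, hx1⟩ := hball (show M.dev k0 + v ∈ Metric.ball (M.dev k0) r by
    simpa [Metric.mem_ball, dist_eq_norm] using hvr)
  obtain ⟨x2, hx2⟩ := hball (show M.dev k0 - v ∈ Metric.ball (M.dev k0) r by
    simpa [Metric.mem_ball, dist_eq_norm] using hvr)
  have h1 := hle x1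
  have h2 := hle x2
  rw [hx1] at h1
  rw [hx2] at h2
  have h3 := hpar (M.dev k0) v
  have h4 : ‖v‖ ^ 2 ≤ ∑ g : M.hol.range, ‖(g.1.linear v : En n)‖ ^ 2 := by
    have := Finset.single_le_sum (f := fun g : M.hol.range => ‖(g.1.linear v : En n)‖ ^ 2)
      (fun g _ => by positivity) (Finset.mem_univ (1 : M.hol.range))
    exact this
  have h5 : 0 < ‖v‖ ^ 2 := by positivity
  linarith

/-- The linear representation of the affine group on `En n × ℝ`. -/
noncomputable def affRep (n : ℕ) : (En n ≃ᵃ[ℝ] En n) →* Module.End ℝ (En n × ℝ) where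
  toFun e := LinearMap.prod
    ((e.linear : En n →ₗ[ℝ] En n) ∘ₗ LinearMap.fst ℝ _ _ +
      (LinearMap.toSpanSingleton ℝ (En n) (e 0)) ∘ₗ LinearMap.snd ℝ _ _)
    (LinearMap.snd ℝ _ _)
  map_one' := by
    ext x <;> simp [AffineEquiv.one_def]
  map_mul' e f := by
    apply LinearMap.ext
    rintro ⟨v, t⟩
    have h1 : e (f 0) = e.linear (f 0) + e 0 := by
      have := e.toAffineMap.map_vadd 0 (f 0)
      simpa using this
    have h2 : (f.trans e).linear v = e.linear (f.linear v) := rfl
    simp [AffineEquiv.mul_def, h1, h2, smul_add, add_assoc]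

lemma affRep_injective (n : ℕ) {e : En n ≃ᵃ[ℝ] En n} (h : affRep n e = 1) : e = 1 := by
  apply AffineEquiv.ext
  intro p
  have h1 : affRep n e (p, 1) = (p, 1) := by rw [h]; rfl
  have h2 : e.linear p + (1 : ℝ) • e 0 = p := congrArg Prod.fst h1
  rw [one_smul] at h2
  have h3 : e p = e.linear p + e 0 := by
    have := e.toAffineMap.map_vadd 0 p
    simpa using this
  rw [h3]
  exact h2

/-- Malcev's theorem for the holonomy: elements with nontrivial holonomy are outside some subgroup
of finite index. -/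
lemma exists_finiteIndex_notMem {g : M.Γ} (hg : M.hol g ≠ 1) :
    ∃ H : Subgroup M.Γ, H.FiniteIndex ∧ g ∉ H := by
  let b := Module.finBasis ℝ (En n × ℝ)
  let N := Module.finrank ℝ (En n × ℝ)
  let A : Module.End ℝ (En n × ℝ) →* Matrix (Fin N) (Fin N) ℝ :=
    (LinearMap.toMatrixAlgEquiv b).toRingEquiv.toMonoidHom
  let f : M.Γ →* GL (Fin N) ℝ := (A.comp ((affRep n).comp M.hol)).toHomUnits
  refine H67PP.t_MALCEV2 M.Γ N f g fun h => hg ?_
  apply affRep_injective
  have h1 : A (affRep n (M.hol g)) = 1 := congrArg Units.val h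
  have h2 : A (affRep n (M.hol g)) = A 1 := by rw [h1, map_one]
  exact (LinearMap.toMatrixAlgEquiv b).injective h2

/-- **A closed affine manifold of positive dimension has finite coverings of arbitrarily large
degree.** -/
theorem exists_large_index (hn : 0 < n) (N : ℕ) :
    ∃ H : Subgroup M.Γ, H.FiniteIndex ∧ N ≤ H.index := by
  classical
  have := M.infinite_range_hol hn
  let F : Fin N → M.hol.range := fun i => Infinite.natEmbedding M.hol.range i
  have hF : Function.Injective F := fun i j hij =>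
    Fin.ext ((Infinite.natEmbedding M.hol.range).injective hij)
  have hc : ∀ i, ∃ γ : M.Γ, M.hol γ = (F i).1 := fun i => (F i).2
  choose c hc using hc
  have hne : ∀ i j, i ≠ j → M.hol ((c i)⁻¹ * c j) ≠ 1 := by
    intro i j hij h
    apply hij
    apply hF
    apply Subtype.ext
    rw [map_mul, map_inv, hc, hc, inv_mul_eq_one] at h
    exact h
  have hK : ∀ p : Fin N × Fin N, ∃ H : Subgroup M.Γ, H.FiniteIndex ∧
      (p.1 ≠ p.2 → (c p.1)⁻¹ * c p.2 ∉ H) := by
    intro p
    by_cases hp : p.1 = p.2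
    · exact ⟨⊤, inferInstance, fun h => absurd hp h⟩
    · obtain ⟨H, h1, h2⟩ := M.exists_finiteIndex_notMem (hne _ _ hp)
      exact ⟨H, h1, fun _ => h2⟩
  choose K hKf hKn using hK
  refine ⟨⨅ p, K p, Subgroup.finiteIndex_iInf hKf, ?_⟩
  have hfi : (⨅ p, K p).FiniteIndex := Subgroup.finiteIndex_iInf hKf
  have : Finite (M.Γ ⧸ ⨅ p, K p) := Subgroup.finite_quotient_of_finiteIndex
  have hinj : Function.Injective fun i : Fin N => (QuotientGroup.mk (c i) : M.Γ ⧸ ⨅ p, K p) := by
    intro i j hij
    by_contra hne'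
    have h1 : (c i)⁻¹ * c j ∈ ⨅ p, K p := QuotientGroup.eq.1 hij
    exact hKn (i, j) hne' (Subgroup.mem_iInf.1 h1 (i, j))
  have h1 := Nat.card_le_card_of_injective _ hinj
  rw [Nat.card_eq_fintype_card, Fintype.card_fin] at h1
  exact h1

end DevMfd

end Pool.Agent.TH711.SV
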