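import Pool.Agent.TH711.SV.Light

/-!
# Singular chains modulo a group, fundamental cycles and finite coverings

Let a group `Γ` act freely and properly discontinuously on `X`. The singular chains of `Γ \ X` are
the singular chains of `X` modulo the chains `γ σ - σ`, because singular simplices lift to the
covering `X`, uniquely up to `Γ`.
-/

set_option autoImplicit false

open Set Filter Topology

namespace Pool.Agent.TH711.SV

/-- Singular `k`-simplices of `X`. -/
abbrev Simp (X : Type) [TopologicalSpace X] (k : ℕ) : Type := C(stdSimplex ℝ (Fin (k + 1)), X)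

/-- Real singular `k`-chains of `X`. -/
abbrev Chain (X : Type) [TopologicalSpace X] (k : ℕ) : Type := Simp X k →₀ ℝ

section

variable {X : Type} [TopologicalSpace X] {k : ℕ}

/-- The face of a singular simplex opposite to the vertex `i`. -/
noncomputable def face (i : Fin (k + 2)) (σ : Simp X (k + 1)) : Simp X k :=
  σ.comp ⟨stdSimplex.map i.succAbove, stdSimplex.continuous_map _⟩

/-- The boundary map. -/
noncomputable def boundary : Chain X (k + 1) →ₗ[ℝ] Chain X k :=
  Finsupp.linearCombination ℝ fun σ : Simp X (k + 1) =>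
    ∑ i : Fin (k + 2), Finsupp.single (face i σ) ((-1 : ℝ) ^ (i : ℕ))

/-- The norm `∑ |a_i|` of the chain `∑ a_i σ_i`. -/
noncomputable def l1 (c : Chain X k) : ℝ := c.sum fun _ a => |a|

/-- The chain has integral coefficients. -/
def IsIntegralChain (c : Chain X k) : Prop := ∀ σ, ∃ z : ℤ, c σ = z

/-- The chains that do not meet the point `x`. -/
noncomputable def away (k : ℕ) (x : X) : Submodule ℝ (Chain X k) :=
  Submodule.span ℝ {z | ∃ σ : Simp X k, x ∉ range σ ∧ z = Finsupp.single σ 1}

/-- The simplex `τ` is a positively oriented affine simplex, with respect to the developing map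
`dev`, and `x` is a point in its interior. -/
structure IsPositive {n : ℕ} (dev : X → Fin n → ℝ) (τ : Simp X n) (x : X) : Prop where
  /-- the simplex is affine -/
  affine : ∀ t, dev (τ t) = ∑ i, t i • dev (τ (stdSimplex.vertex i))
  /-- it is nondegenerate and positively oriented -/
  pos : 0 < (Matrix.of fun j i : Fin n =>
    dev (τ (stdSimplex.vertex j.succ)) i - dev (τ (stdSimplex.vertex 0)) i).det
  /-- the point is in its interior -/
  interior : ∃ t : stdSimplex ℝ (Fin (n + 1)), (∀ i, 0 < t i) ∧ τ t = x

/-- The chains `c` and `d` represent the same class in the homology of `X` relative to `X - x`: their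
difference is a boundary plus a chain that does not meet `x`. -/
def SameLocalClass (x : X) (c d : Chain X (k + 1)) : Prop :=
  ∃ b : Chain X (k + 2), c - d - boundary b ∈ away (k + 1) x

lemma sameLocalClass_iff {x : X} {c d : Chain X (k + 1)} : SameLocalClass x c d ↔
    c - d ∈ LinearMap.range (boundary (X := X) (k := k + 1)) ⊔ away (k + 1) x := by
  constructor
  · rintro ⟨b, hb⟩
    have : c - d = boundary b + (c - d - boundary b) := by abel
    rw [this]
    exact add_mem (Submodule.mem_sup_left ⟨b, rfl⟩) (Submodule.mem_sup_right hb)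
  · intro h
    obtain ⟨_, ⟨b, rfl⟩, e, he, hs⟩ := Submodule.mem_sup.1 h
    refine ⟨b, ?_⟩
    rw [← hs, add_sub_cancel_left]
    exact he

variable {Γ : Type} [Group Γ] [MulAction Γ X] [ContinuousConstSMul Γ X]

/-- The translation of chains by a group element. -/
noncomputable def act (γ : Γ) : Chain X k →ₗ[ℝ] Chain X k :=
  Finsupp.lmapDomain ℝ ℝ fun σ : Simp X k => γ • σ

/-- The chains that become zero in the quotient `Γ \ X`. -/
noncomputable def coinv (X : Type) [TopologicalSpace X] (Γ : Type) [Group Γ] [MulAction Γ X]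
    [ContinuousConstSMul Γ X] (k : ℕ) : Submodule ℝ (Chain X k) :=
  Submodule.span ℝ {z | ∃ (γ : Γ) (σ : Simp X k),
    z = Finsupp.single (γ • σ) 1 - Finsupp.single σ 1}

/-- The finite set `F` contains all elements `γ` for which `γ c` may meet `x`. -/
def Hits (c : Chain X k) (x : X) (F : Finset Γ) : Prop :=
  ∀ γ : Γ, γ ∉ F → ∀ σ ∈ c.support, x ∉ range (γ • σ : Simp X k)

/-- The chain `c` of `X` represents the fundamental class of the oriented closed manifold `Γ \ X`:
its image in `Γ \ X` is a cycle, and at every point `x` of `X` the lifted cycle `∑ γ c`, the sum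
over all `γ` in `Γ`, represents the same local homology class in `H_n(X, X - x)` as the positively
oriented affine simplices around `x`. (Only finitely many translates of `c` meet `x`.) -/
structure IsFundamental {m : ℕ} (Γ : Type) [Group Γ] [MulAction Γ X] [ContinuousConstSMul Γ X]
    (dev : X → Fin (m + 1) → ℝ) (c : Chain X (m + 1)) : Prop where
  /-- the chain is a cycle of the quotient -/
  cycle : boundary c ∈ coinv X Γ m
  /-- its local classes are those of the orientation -/
  local_class : ∀ (x : X) (τ : Simp X (m + 1)), IsPositive dev τ x → ∀ F : Finset Γ, Hits c x F →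
    SameLocalClass x (∑ γ ∈ F, act γ c) (Finsupp.single τ 1)

lemma act_single (γ : Γ) (σ : Simp X k) (a : ℝ) :
    act γ (Finsupp.single σ a) = Finsupp.single (γ • σ) a := by
  simp [act, Finsupp.lmapDomain_apply]

lemma act_mul (γ δ : Γ) (c : Chain X k) : act (γ * δ) c = act γ (act δ c) := by
  induction c using Finsupp.induction_linear with
  | zero => simp
  | add f g hf hg => simp only [map_add, hf, hg]
  | single σ a => rw [act_single, act_single, act_single, mul_smul]

lemma act_one (c : Chain X k) : act (1 : Γ) c = c := by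
  induction c using Finsupp.induction_linear with
  | zero => simp
  | add f g hf hg => simp only [map_add, hf, hg]
  | single σ a => rw [act_single, one_smul]

lemma face_smul (γ : Γ) (i : Fin (k + 2)) (σ : Simp X (k + 1)) :
    face i (γ • σ) = γ • face i σ := rfl

lemma boundary_single (σ : Simp X (k + 1)) (a : ℝ) : boundary (Finsupp.single σ a) =
    a • ∑ i : Fin (k + 2), Finsupp.single (face i σ) ((-1 : ℝ) ^ (i : ℕ)) := by
  rw [boundary, Finsupp.linearCombination_single]

lemma boundary_act (γ : Γ) (c : Chain X (k + 1)) : boundary (act γ c) = act γ (boundary c) := by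
  induction c using Finsupp.induction_linear with
  | zero => simp
  | add f g hf hg => simp only [map_add, hf, hg]
  | single σ a =>
    rw [act_single, boundary_single, boundary_single, map_smul, map_sum]
    simp only [act_single, face_smul]

lemma act_sub_mem_coinv (γ : Γ) (c : Chain X k) : act γ c - c ∈ coinv X Γ k := by
  induction c using Finsupp.induction_linear with
  | zero => simp
  | add f g hf hg =>
    have : act γ (f + g) - (f + g) = (act γ f - f) + (act γ g - g) := by rw [map_add]; abel
    rw [this]
    exact add_mem hf hg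
  | single σ a =>
    have : act γ (Finsupp.single σ a) - Finsupp.single σ a =
        a • (Finsupp.single (γ • σ) 1 - Finsupp.single σ 1) := by
      rw [act_single, smul_sub, Finsupp.smul_single, Finsupp.smul_single, smul_eq_mul, mul_one]
    rw [this]
    exact Submodule.smul_mem _ _ (Submodule.subset_span ⟨γ, σ, rfl⟩)

instance subgroupContinuousConstSMul (H : Subgroup Γ) : ContinuousConstSMul H X :=
  ⟨fun h => continuous_const_smul (h : Γ)⟩

lemma coinv_le (H : Subgroup Γ) : coinv X H k ≤ coinv X Γ k := by
  refine Submodule.span_mono ?_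
  rintro z ⟨h, σ, rfl⟩
  exact ⟨h.1, σ, rfl⟩

lemma mem_away {x : X} {c : Chain X k} (h : ∀ σ ∈ c.support, x ∉ range σ) : c ∈ away k x := by
  rw [← Finsupp.sum_single c]
  refine Submodule.sum_mem _ fun σ hσ => ?_
  have : Finsupp.single σ (c σ) = (c σ) • Finsupp.single σ (1 : ℝ) := by
    rw [Finsupp.smul_single, smul_eq_mul, mul_one]
  rw [this]
  exact Submodule.smul_mem _ _ (Submodule.subset_span ⟨σ, h σ hσ, rfl⟩)

lemma act_mem_away {x : X} {γ : Γ} {c : Chain X k}
    (h : ∀ σ ∈ c.support, x ∉ range (γ • σ : Simp X k)) : act γ c ∈ away k x := by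
  refine mem_away fun σ hσ => ?_
  classical
  have h1 : σ ∈ c.support.image (fun σ : Simp X k => γ • σ) :=
    Finsupp.mapDomain_support hσ
  obtain ⟨σ', hσ', rfl⟩ := Finset.mem_image.1 h1
  exact h σ' hσ'

lemma act_away {x y : X} {γ : Γ} (hxy : γ • y = x) {c : Chain X k} (h : c ∈ away k y) :
    act γ c ∈ away k x := by
  induction h using Submodule.span_induction with
  | mem z hz =>
    obtain ⟨σ, hσ, rfl⟩ := hz
    rw [act_single]
    refine Submodule.subset_span ⟨γ • σ, ?_, rfl⟩
    rintro ⟨t, ht⟩
    apply hσ
    refine ⟨t, ?_⟩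
    have h1 : γ • σ t = γ • y := by rw [hxy]; exact ht
    exact MulAction.injective γ h1
  | zero => simp
  | add f g _ _ hf hg => rw [map_add]; exact add_mem hf hg
  | smul a f _ hf => rw [map_smul]; exact Submodule.smul_mem _ _ hf

lemma act_range (γ : Γ) {c : Chain X k} (h : c ∈ LinearMap.range (boundary (X := X) (k := k))) :
    act γ c ∈ LinearMap.range (boundary (X := X) (k := k)) := by
  obtain ⟨b, rfl⟩ := h
  exact ⟨act γ b, boundary_act γ b⟩

lemma act_sup {x y : X} {γ : Γ} (hxy : γ • y = x) {c : Chain X k}
    (h : c ∈ LinearMap.range (boundary (X := X) (k := k)) ⊔ away k y) :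
    act γ c ∈ LinearMap.range (boundary (X := X) (k := k)) ⊔ away k x := by
  obtain ⟨a, ha, b, hb, rfl⟩ := Submodule.mem_sup.1 h
  rw [map_add]
  exact add_mem (Submodule.mem_sup_left (act_range γ ha))
    (Submodule.mem_sup_right (act_away hxy hb))

lemma sum_change {c : Chain X k} {x : X} {F₁ F₂ : Finset Γ} (h : Hits c x F₁) (hF : F₁ ⊆ F₂) :
    ∑ γ ∈ F₂, act γ c - ∑ γ ∈ F₁, act γ c ∈ away k x := by
  classical
  rw [← Finset.sum_sdiff hF, add_sub_cancel_right]
  refine Submodule.sum_mem _ fun γ hγ => act_mem_away (h γ ?_)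
  exact (Finset.mem_sdiff.1 hγ).2

lemma exists_hits (hfin : ∀ K : Set X, IsCompact K → {γ : Γ | ∃ x ∈ K, γ • x ∈ K}.Finite)
    (c : Chain X k) (x : X) : ∃ F : Finset Γ, Hits c x F := by
  classical
  let K : Set X := {x} ∪ ⋃ σ ∈ c.support, range σ
  have hK : IsCompact K := by
    refine isCompact_singleton.union ?_
    exact c.support.finite_toSet.isCompact_biUnion fun σ _ => isCompact_range σ.continuous
  refine ⟨(hfin K hK).toFinset, fun γ hγ σ hσ hx => hγ ?_⟩
  rw [Set.Finite.mem_toFinset]
  obtain ⟨t, ht⟩ := hx
  refine ⟨σ t, Or.inr (mem_biUnion hσ ⟨t, rfl⟩), Or.inl ?_⟩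
  exact ht

lemma l1_eq_sum (c : Chain X k) : l1 c = ∑ σ ∈ c.support, |c σ| := rfl

lemma l1_nonneg (c : Chain X k) : 0 ≤ l1 c := by
  rw [l1_eq_sum]
  exact Finset.sum_nonneg fun _ _ => abs_nonneg _

lemma l1_add (c d : Chain X k) : l1 (c + d) ≤ l1 c + l1 d := by
  classical
  have h : ∀ (e : Chain X k) (s : Finset (Simp X k)), e.support ⊆ s → l1 e = ∑ σ ∈ s, |e σ| := by
    intro e s hs
    rw [l1_eq_sum]
    refine Finset.sum_subset hs fun σ _ hσ => ?_
    rw [Finsupp.notMem_support_iff.1 hσ, abs_zero]
  rw [h (c + d) (c.support ∪ d.support) Finsupp.support_add, h c (c.support ∪ d.support)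
    Finset.subset_union_left, h d (c.support ∪ d.support) Finset.subset_union_right,
    ← Finset.sum_add_distrib]
  exact Finset.sum_le_sum fun σ _ => abs_add_le _ _

lemma l1_smul (a : ℝ) (c : Chain X k) : l1 (a • c) = |a| * l1 c := by
  classical
  by_cases ha : a = 0
  · subst ha
    simp [l1]
  · rw [l1_eq_sum, l1_eq_sum, Finsupp.support_smul_eq ha, Finset.mul_sum]
    exact Finset.sum_congr rfl fun σ _ => by rw [Finsupp.smul_apply, smul_eq_mul, abs_mul]

lemma l1_sum {ι : Type} (s : Finset ι) (f : ι → Chain X k) :
    l1 (∑ i ∈ s, f i) ≤ ∑ i ∈ s, l1 (f i) := by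
  classical
  induction s using Finset.induction_on with
  | empty => simp [l1]
  | insert a s ha ih =>
    rw [Finset.sum_insert ha, Finset.sum_insert ha]
    exact (l1_add _ _).trans (by linarith)

lemma l1_act (γ : Γ) (c : Chain X k) : l1 (act γ c) = l1 c := by
  unfold l1 act
  rw [Finsupp.lmapDomain_apply]
  rw [Finsupp.sum_mapDomain_index_inj (MulAction.injective γ)]

end

end Pool.Agent.TH711.SV
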