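import Pool.Agent.TH711.SV.Chain

/-!
# Fundamental cycles of finite coverings: transfer and projection
-/

set_option autoImplicit false
set_option linter.unusedSectionVars false

open Set Filter Topology

namespace Pool.Agent.TH711.SV

section

variable {X : Type} [TopologicalSpace X] {k : ℕ} {Γ : Type} [Group Γ] [MulAction Γ X]
  [ContinuousConstSMul Γ X] (H : Subgroup Γ) [Fintype (Γ ⧸ H)]

/-- The transfer of a chain to the covering `H \ X` of `Γ \ X`. -/
noncomputable def transfer : Chain X k →ₗ[ℝ] Chain X k :=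
  ∑ q : Γ ⧸ H, act (q.out)⁻¹

lemma transfer_apply (c : Chain X k) : transfer H c = ∑ q : Γ ⧸ H, act (q.out)⁻¹ c := by
  simp [transfer]

lemma boundary_transfer (c : Chain X (k + 1)) :
    boundary (transfer H c) = transfer H (boundary c) := by
  rw [transfer_apply, transfer_apply, map_sum]
  exact Finset.sum_congr rfl fun q _ => boundary_act _ _

/-- Decomposition of `γ` as an element of `H` times a representative. -/
noncomputable def decL (γ : Γ) : H :=
  ⟨γ * (QuotientGroup.mk γ⁻¹ : Γ ⧸ H).out, by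
    have h1 : ((QuotientGroup.mk γ⁻¹ : Γ ⧸ H).out)⁻¹ * γ⁻¹ ∈ H := by
      rw [← QuotientGroup.eq, QuotientGroup.out_eq']
    simpa using H.inv_mem h1⟩

lemma decL_spec (γ : Γ) :
    (decL H γ : Γ) * ((QuotientGroup.mk γ⁻¹ : Γ ⧸ H).out)⁻¹ = γ := by
  simp [decL]

lemma act_coe (h : H) (c : Chain X k) : act h c = act (h : Γ) c := rfl

lemma transfer_coinv {c : Chain X k} (hc : c ∈ coinv X Γ k) : transfer H c ∈ coinv X H k := by
  induction hc using Submodule.span_induction with
  | mem z hz =>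
    obtain ⟨γ, σ, rfl⟩ := hz
    have h0 : (Finsupp.single (γ • σ) 1 : Chain X k) = act γ (Finsupp.single σ 1) := by
      rw [act_single]
    rw [map_sub, h0, transfer_apply, transfer_apply]
    have h1 : ∑ q : Γ ⧸ H, act (q.out)⁻¹ (Finsupp.single σ (1 : ℝ) : Chain X k) =
        ∑ q : Γ ⧸ H, act ((γ⁻¹ • q).out)⁻¹ (Finsupp.single σ (1 : ℝ) : Chain X k) :=
      (Fintype.sum_equiv (MulAction.toPerm γ⁻¹) _ _ fun q => rfl).symm
    rw [h1, ← Finset.sum_sub_distrib]
    refine Submodule.sum_mem _ fun q _ => ?_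
    have h2 : (QuotientGroup.mk ((q.out)⁻¹ * γ)⁻¹ : Γ ⧸ H) = γ⁻¹ • q := by
      rw [mul_inv_rev, inv_inv]
      conv_rhs => rw [← QuotientGroup.out_eq' q]
      rfl
    have h3 := decL_spec H ((q.out)⁻¹ * γ)
    rw [h2] at h3
    rw [← act_mul, ← h3, act_mul, ← act_coe]
    exact act_sub_mem_coinv _ _
  | zero => simp
  | add f g _ _ hf hg => rw [map_add]; exact add_mem hf hg
  | smul a f _ hf => rw [map_smul]; exact Submodule.smul_mem _ _ hf

lemma l1_transfer (c : Chain X k) : l1 (transfer H c) ≤ Fintype.card (Γ ⧸ H) * l1 c := by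
  rw [transfer_apply]
  refine (l1_sum _ _).trans ?_
  simp [l1_act, Finset.card_univ]

variable {m : ℕ} {dev : X → Fin (m + 1) → ℝ}

/-- The transfer of a fundamental cycle is a fundamental cycle of the covering. -/
theorem fund_transfer
    (hfin : ∀ K : Set X, IsCompact K → {γ : Γ | ∃ x ∈ K, γ • x ∈ K}.Finite)
    {c : Chain X (m + 1)} (hc : IsFundamental Γ dev c) : IsFundamental H dev (transfer H c) := by
  classical
  refine ⟨?_, fun x τ hτ F' hF' => ?_⟩
  · rw [boundary_transfer]
    exact transfer_coinv H hc.cycle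
  · rw [sameLocalClass_iff]
    obtain ⟨F0, hF0⟩ := exists_hits hfin c x
    let Fs : Finset H := F' ∪ F0.image (decL H)
    let e : H × (Γ ⧸ H) → Γ := fun p => (p.1 : Γ) * (p.2.out)⁻¹
    have he : Function.Injective e := by
      rintro ⟨h, q⟩ ⟨h', q'⟩ heq
      have h1 : (h : Γ) * (q.out)⁻¹ = (h' : Γ) * (q'.out)⁻¹ := heq
      have h2 : q.out * (h : Γ)⁻¹ = q'.out * (h' : Γ)⁻¹ := by
        have := congrArg (fun g => g⁻¹) h1
        simpa using this
      have h3 : (QuotientGroup.mk (q.out * (h : Γ)⁻¹) : Γ ⧸ H) = q := by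
        rw [QuotientGroup.mk_mul_of_mem _ (H.inv_mem h.2), QuotientGroup.out_eq']
      have h4 : (QuotientGroup.mk (q'.out * (h' : Γ)⁻¹) : Γ ⧸ H) = q' := by
        rw [QuotientGroup.mk_mul_of_mem _ (H.inv_mem h'.2), QuotientGroup.out_eq']
      have h5 : q = q' := by rw [← h3, ← h4, h2]
      subst h5
      have h6 : (h : Γ) = h' := mul_right_cancel h1
      exact Prod.ext (Subtype.ext h6) rfl
    let F : Finset Γ := (Fs ×ˢ Finset.univ).image e
    have hFh : Hits c x F := by
      intro γ hγ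
      refine hF0 γ fun hγ0 => hγ ?_
      refine Finset.mem_image.2 ⟨(decL H γ, (QuotientGroup.mk γ⁻¹ : Γ ⧸ H)), ?_, decL_spec H γ⟩
      refine Finset.mem_product.2 ⟨?_, Finset.mem_univ _⟩
      exact Finset.mem_union_right _ (Finset.mem_image_of_mem _ hγ0)
    have hsum : ∑ γ ∈ F, act γ c = ∑ h ∈ Fs, act h (transfer H c) := by
      rw [Finset.sum_image he.injOn, Finset.sum_product]
      refine Finset.sum_congr rfl fun h _ => ?_
      rw [transfer_apply, map_sum]
      exact Finset.sum_congr rfl fun q _ => act_mul _ _ _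
    have h1 := sameLocalClass_iff.1 (hc.local_class x τ hτ F hFh)
    rw [hsum] at h1
    have h2 : ∑ h ∈ Fs, act h (transfer H c) - ∑ h ∈ F', act h (transfer H c) ∈
        away (m + 1) x := sum_change hF' Finset.subset_union_left
    have h3 : ∑ h ∈ F', act h (transfer H c) - Finsupp.single τ 1 =
        (∑ h ∈ Fs, act h (transfer H c) - Finsupp.single τ 1) -
          (∑ h ∈ Fs, act h (transfer H c) - ∑ h ∈ F', act h (transfer H c)) := by abel
    rw [h3]
    exact sub_mem h1 (Submodule.mem_sup_right h2)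

/-- Decomposition of `γ` as a representative times an element of `H`. -/
noncomputable def decR (γ : Γ) : H :=
  ⟨((QuotientGroup.mk γ : Γ ⧸ H).out)⁻¹ * γ, by
    rw [← QuotientGroup.eq, QuotientGroup.out_eq']⟩

lemma decR_spec (γ : Γ) : (QuotientGroup.mk γ : Γ ⧸ H).out * (decR H γ : Γ) = γ := by
  simp [decR]

lemma decR_mul (q : Γ ⧸ H) (h : H) : decR H (q.out * h) = h := by
  apply Subtype.ext
  have h1 : (QuotientGroup.mk (q.out * (h : Γ)) : Γ ⧸ H) = q := by
    rw [QuotientGroup.mk_mul_of_mem _ h.2, QuotientGroup.out_eq']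
  simp [decR, h1]

variable {lin : Γ → Matrix (Fin (m + 1)) (Fin (m + 1)) ℝ} {trans : Γ → Fin (m + 1) → ℝ}

lemma IsPositive.smul (heq : ∀ (γ : Γ) (x : X), dev (γ • x) = (lin γ).mulVec (dev x) + trans γ)
    {γ : Γ} (hdet : 0 < (lin γ).det)
    {τ : Simp X (m + 1)} {x : X} (h : IsPositive dev τ x) :
    IsPositive dev (γ • τ) (γ • x) := by
  refine ⟨fun t => ?_, ?_, ?_⟩
  · show dev (γ • τ t) = ∑ i, t i • dev (γ • τ (stdSimplex.vertex i))
    rw [heq, h.affine t]
    simp only [heq]
    have h3 : (lin γ).mulVec (∑ i, t i • dev (τ (stdSimplex.vertex i))) =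
        ∑ i, t i • (lin γ).mulVec (dev (τ (stdSimplex.vertex i))) := by
      rw [← Matrix.toLin'_apply, map_sum]
      simp only [map_smul, Matrix.toLin'_apply]
    rw [h3]
    simp only [smul_add]
    rw [Finset.sum_add_distrib, ← Finset.sum_smul, stdSimplex.sum_eq_one, one_smul]
  · have h1 : (Matrix.of fun j i : Fin (m + 1) => dev ((γ • τ) (stdSimplex.vertex j.succ)) i -
        dev ((γ • τ) (stdSimplex.vertex 0)) i) =
        (Matrix.of fun j i : Fin (m + 1) =>
          dev (τ (stdSimplex.vertex j.succ)) i - dev (τ (stdSimplex.vertex 0)) i) *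
          (lin γ).transpose := by
      ext j i
      show dev (γ • τ _) i - dev (γ • τ _) i = _
      rw [heq, heq, Matrix.mul_apply]
      simp only [Pi.add_apply, Matrix.mulVec, dotProduct, Matrix.of_apply, Matrix.transpose_apply]
      rw [add_sub_add_right_eq_sub, ← Finset.sum_sub_distrib]
      exact Finset.sum_congr rfl fun l _ => by ring
    rw [h1, Matrix.det_mul, Matrix.det_transpose]
    exact mul_pos h.pos hdet
  · obtain ⟨t, ht, hx⟩ := h.interior
    exact ⟨t, ht, by rw [← hx]; rfl⟩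

/-- A fundamental cycle of the covering, divided by the degree, projects to a fundamental cycle. -/
theorem fund_push (heq : ∀ (γ : Γ) (x : X), dev (γ • x) = (lin γ).mulVec (dev x) + trans γ)
    (hdet : ∀ γ : Γ, 0 < (lin γ).det)
    {c : Chain X (m + 1)} (hc : IsFundamental H dev c) :
    IsFundamental Γ dev (((Fintype.card (Γ ⧸ H) : ℝ)⁻¹) • c) := by
  classical
  have hd0 : (Fintype.card (Γ ⧸ H) : ℝ) ≠ 0 := by
    have : Nonempty (Γ ⧸ H) := ⟨QuotientGroup.mk 1⟩
    exact_mod_cast Fintype.card_ne_zero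
  refine ⟨?_, fun x τ hτ F hF => ?_⟩
  · rw [map_smul]
    exact Submodule.smul_mem _ _ (coinv_le H hc.cycle)
  · rw [sameLocalClass_iff]
    have hF' : Hits c x F := by
      intro γ hγ σ hσ
      refine hF γ hγ σ ?_
      rw [Finsupp.support_smul_eq (inv_ne_zero hd0)]
      exact hσ
    let FH : Finset H := F.image (decR H)
    let e : (Γ ⧸ H) × H → Γ := fun p => p.1.out * (p.2 : Γ)
    have he : Function.Injective e := by
      rintro ⟨q, h⟩ ⟨q', h'⟩ heq'
      have h1 : q.out * (h : Γ) = q'.out * (h' : Γ) := heq'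
      have h3 : (QuotientGroup.mk (q.out * (h : Γ)) : Γ ⧸ H) = q := by
        rw [QuotientGroup.mk_mul_of_mem _ h.2, QuotientGroup.out_eq']
      have h4 : (QuotientGroup.mk (q'.out * (h' : Γ)) : Γ ⧸ H) = q' := by
        rw [QuotientGroup.mk_mul_of_mem _ h'.2, QuotientGroup.out_eq']
      have h5 : q = q' := by rw [← h3, ← h4, h1]
      subst h5
      exact Prod.ext rfl (Subtype.ext (mul_left_cancel h1))
    let Fs : Finset Γ := (Finset.univ ×ˢ FH).image e
    have hsub : F ⊆ Fs := by
      intro γ hγ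
      refine Finset.mem_image.2 ⟨((QuotientGroup.mk γ : Γ ⧸ H), decR H γ), ?_, decR_spec H γ⟩
      exact Finset.mem_product.2 ⟨Finset.mem_univ _, Finset.mem_image_of_mem _ hγ⟩
    have hsum : ∑ γ ∈ Fs, act γ c = ∑ q : Γ ⧸ H, act q.out (∑ h ∈ FH, act h c) := by
      rw [Finset.sum_image he.injOn, Finset.sum_product]
      refine Finset.sum_congr rfl fun q _ => ?_
      rw [map_sum]
      exact Finset.sum_congr rfl fun h _ => act_mul _ _ _
    have hloc : ∀ q : Γ ⧸ H, act q.out (∑ h ∈ FH, act h c) - Finsupp.single τ 1 ∈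
        LinearMap.range (boundary (X := X) (k := m + 1)) ⊔ away (m + 1) x := by
      intro q
      have hx : q.out • ((q.out)⁻¹ • x) = x := smul_inv_smul _ _
      have h1 := sameLocalClass_iff.1 <| hc.local_class ((q.out)⁻¹ • x) ((q.out)⁻¹ • τ)
        (IsPositive.smul heq (hdet _) hτ) FH (by
          rintro h hh σ hσ ⟨t, ht⟩
          by_cases hγ : q.out * (h : Γ) ∈ F
          · apply hh
            rw [← decR_mul H q h]
            exact Finset.mem_image_of_mem _ hγ
          · apply hF' _ hγ σ hσ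
            refine ⟨t, ?_⟩
            show (q.out * (h : Γ)) • σ t = x
            have ht' : (h : Γ) • σ t = (q.out)⁻¹ • x := ht
            rw [mul_smul, ht', hx])
      have h2 := act_sup hx h1
      rw [map_sub, act_single, smul_inv_smul] at h2
      exact h2
    have hall : ∑ q : Γ ⧸ H, act q.out (∑ h ∈ FH, act h c) -
        (Fintype.card (Γ ⧸ H) : ℝ) • Finsupp.single τ 1 ∈
        LinearMap.range (boundary (X := X) (k := m + 1)) ⊔ away (m + 1) x := by
      have h1 : ∑ q : Γ ⧸ H, act q.out (∑ h ∈ FH, act h c) -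
          (Fintype.card (Γ ⧸ H) : ℝ) • Finsupp.single τ 1 =
          ∑ q : Γ ⧸ H, (act q.out (∑ h ∈ FH, act h c) - Finsupp.single τ 1) := by
        rw [Finset.sum_sub_distrib, Finset.sum_const, Finset.card_univ, Nat.cast_smul_eq_nsmul]
      rw [h1]
      exact Submodule.sum_mem _ fun q _ => hloc q
    rw [← hsum] at hall
    have hch : ∑ γ ∈ Fs, act γ c - ∑ γ ∈ F, act γ c ∈ away (m + 1) x := sum_change hF' hsub
    have hfinal : ∑ γ ∈ F, act γ (((Fintype.card (Γ ⧸ H) : ℝ)⁻¹) • c) - Finsupp.single τ 1 =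
        ((Fintype.card (Γ ⧸ H) : ℝ)⁻¹) • ((∑ γ ∈ Fs, act γ c -
          (Fintype.card (Γ ⧸ H) : ℝ) • Finsupp.single τ 1) -
          (∑ γ ∈ Fs, act γ c - ∑ γ ∈ F, act γ c)) := by
      have h1 : (∑ γ ∈ Fs, act γ c - (Fintype.card (Γ ⧸ H) : ℝ) • Finsupp.single τ 1) -
          (∑ γ ∈ Fs, act γ c - ∑ γ ∈ F, act γ c) =
          ∑ γ ∈ F, act γ c - (Fintype.card (Γ ⧸ H) : ℝ) • Finsupp.single τ 1 := by abel
      rw [h1, smul_sub, smul_smul, inv_mul_cancel₀ hd0, one_smul, Finset.smul_sum]
      simp only [map_smul]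
    rw [hfinal]
    exact Submodule.smul_mem _ _ (sub_mem hall (Submodule.mem_sup_right hch))

end

end Pool.Agent.TH711.SV
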