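import Pool.Agent.TH711.SV.Base

/-!
# Closed affine manifolds: definition, finite coverings
-/

set_option autoImplicit false

open Set Filter Topology

namespace Pool.Agent.TH711.SV

/-- A closed connected affine manifold `M = Γ \ X` of dimension `n`, given by a connected covering
space `X` (for example the universal one), the group `Γ` of deck transformations, the developing
map and the affine holonomy `p ↦ lin γ p + trans γ`. -/
structure AffineManifold (n : ℕ) where
  /-- the covering space -/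
  X : Type
  /-- the group of deck transformations -/
  Γ : Type
  [top : TopologicalSpace X]
  [t2 : T2Space X]
  [conn : ConnectedSpace X]
  [grp : Group Γ]
  [act : MulAction Γ X]
  /-- the developing map -/
  dev : X → Fin n → ℝ
  /-- the linear part of the holonomy -/
  lin : Γ → Matrix (Fin n) (Fin n) ℝ
  /-- the translation part of the holonomy -/
  trans : Γ → Fin n → ℝ
  /-- the group acts by homeomorphisms -/
  cont : ∀ γ : Γ, Continuous fun x : X => γ • x
  /-- the action is free -/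
  free : ∀ (γ : Γ) (x : X), γ • x = x → γ = 1
  /-- the action is properly discontinuous -/
  proper : ∀ K : Set X, IsCompact K → {γ : Γ | ∃ x ∈ K, γ • x ∈ K}.Finite
  /-- the quotient is compact -/
  cocompact : ∃ K : Set X, IsCompact K ∧ ∀ x : X, ∃ γ : Γ, ∃ k ∈ K, γ • k = x
  /-- the developing map is a local homeomorphism -/
  loc : IsLocalHomeomorph dev
  /-- the developing map is equivariant -/
  equivariant : ∀ (γ : Γ) (x : X), dev (γ • x) = (lin γ).mulVec (dev x) + trans γ

attribute [instance] AffineManifold.top AffineManifold.t2 AffineManifold.conn AffineManifold.grp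
  AffineManifold.act

variable {n : ℕ}

lemma affine_ext {A A' : Matrix (Fin n) (Fin n) ℝ} {b b' : Fin n → ℝ} {U : Set (Fin n → ℝ)}
    (hU : IsOpen U) (hne : U.Nonempty) (h : ∀ p ∈ U, A.mulVec p + b = A'.mulVec p + b') :
    A = A' ∧ b = b' := by
  obtain ⟨p0, hp0⟩ := hne
  have h0 := h p0 hp0
  have hv : ∀ v : Fin n → ℝ, A.mulVec v = A'.mulVec v := by
    intro v
    have hc : Continuous fun t : ℝ => p0 + t • v := by fun_prop
    have h1 : ∀ᶠ t in 𝓝 (0 : ℝ), p0 + t • v ∈ U := by
      have : (fun t : ℝ => p0 + t • v) ⁻¹' U ∈ 𝓝 (0 : ℝ) :=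
        hc.continuousAt.preimage_mem_nhds (by simpa using hU.mem_nhds hp0)
      exact this
    obtain ⟨t, ht, ht0⟩ := ((h1.filter_mono nhdsWithin_le_nhds).and
      (self_mem_nhdsWithin : Ioi (0 : ℝ) ∈ 𝓝[>] 0)).exists
    have h2 := h _ ht
    rw [Matrix.mulVec_add, Matrix.mulVec_add, Matrix.mulVec_smul, Matrix.mulVec_smul] at h2
    have h3 : t • A.mulVec v = t • A'.mulVec v := by
      have : (A.mulVec p0 + t • A.mulVec v + b) - (A.mulVec p0 + b) =
          (A'.mulVec p0 + t • A'.mulVec v + b') - (A'.mulVec p0 + b') := by rw [h2, h0]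
      have e1 : (A.mulVec p0 + t • A.mulVec v + b) - (A.mulVec p0 + b) = t • A.mulVec v := by abel
      have e2 : (A'.mulVec p0 + t • A'.mulVec v + b') - (A'.mulVec p0 + b') =
        t • A'.mulVec v := by abel
      rwa [e1, e2] at this
    exact smul_right_injective _ (ne_of_gt ht0) h3
  have hA : A = A' := by
    apply Matrix.toLin'.injective
    apply LinearMap.ext
    intro v
    rw [Matrix.toLin'_apply, Matrix.toLin'_apply, hv]
  refine ⟨hA, ?_⟩
  rw [hA] at h0
  exact add_left_cancel h0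

namespace AffineManifold

variable (M : AffineManifold n)

lemma aff_mul (γ δ : M.Γ) : M.lin (γ * δ) = M.lin γ * M.lin δ ∧
    M.trans (γ * δ) = (M.lin γ).mulVec (M.trans δ) + M.trans γ := by
  refine affine_ext (U := range M.dev) M.loc.isOpenMap.isOpen_range (range_nonempty _) ?_
  rintro p ⟨x, rfl⟩
  rw [← M.equivariant, mul_smul, M.equivariant, M.equivariant, Matrix.mulVec_add,
    Matrix.mulVec_mulVec, add_assoc]

lemma aff_one : M.lin 1 = 1 ∧ M.trans 1 = 0 := by
  refine affine_ext (U := range M.dev) M.loc.isOpenMap.isOpen_range (range_nonempty _) ?_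
  rintro p ⟨x, rfl⟩
  rw [← M.equivariant, one_smul, Matrix.one_mulVec, add_zero]

/-- The linear part of the holonomy as a linear equivalence. -/
noncomputable def linE (γ : M.Γ) : (Fin n → ℝ) ≃ₗ[ℝ] (Fin n → ℝ) :=
  LinearEquiv.ofLinearMap (Matrix.toLin' (M.lin γ)) (Matrix.toLin' (M.lin γ⁻¹))
    (by rw [← Matrix.toLin'_mul, ← (M.aff_mul γ γ⁻¹).1, mul_inv_cancel, M.aff_one.1,
      Matrix.toLin'_one])
    (by rw [← Matrix.toLin'_mul, ← (M.aff_mul γ⁻¹ γ).1, inv_mul_cancel, M.aff_one.1,
      Matrix.toLin'_one])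

/-- The holonomy of `γ` as an affine equivalence. -/
noncomputable def holE (γ : M.Γ) : En n ≃ᵃ[ℝ] En n :=
  (((WithLp.linearEquiv 2 ℝ (Fin n → ℝ)).trans
    ((M.linE γ).trans (WithLp.linearEquiv 2 ℝ (Fin n → ℝ)).symm)).toAffineEquiv).trans
    (AffineEquiv.constVAdd ℝ (En n) ((WithLp.linearEquiv 2 ℝ (Fin n → ℝ)).symm (M.trans γ)))

lemma holE_apply (γ : M.Γ) (p : Fin n → ℝ) : M.holE γ ((WithLp.linearEquiv 2 ℝ (Fin n → ℝ)).symm p) =
    (WithLp.linearEquiv 2 ℝ (Fin n → ℝ)).symm ((M.lin γ).mulVec p + M.trans γ) := by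
  rw [map_add, add_comm]
  rfl

/-- The manifold in the form of `Base`. -/
noncomputable def toDev : DevMfd n where
  X := M.X
  Γ := M.Γ
  dev := fun x => (WithLp.linearEquiv 2 ℝ (Fin n → ℝ)).symm (M.dev x)
  hol :=
    { toFun := M.holE
      map_one' := by
        apply AffineEquiv.ext
        intro p
        obtain ⟨p, rfl⟩ := (WithLp.linearEquiv 2 ℝ (Fin n → ℝ)).symm.surjective p
        rw [M.holE_apply, M.aff_one.1, M.aff_one.2, Matrix.one_mulVec, add_zero]
        rfl
      map_mul' := fun γ δ => by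
        apply AffineEquiv.ext
        intro p
        obtain ⟨p, rfl⟩ := (WithLp.linearEquiv 2 ℝ (Fin n → ℝ)).symm.surjective p
        have h1 : (M.holE γ * M.holE δ) ((WithLp.linearEquiv 2 ℝ (Fin n → ℝ)).symm p) =
          M.holE γ (M.holE δ ((WithLp.linearEquiv 2 ℝ (Fin n → ℝ)).symm p)) := rfl
        rw [h1, M.holE_apply, M.holE_apply, M.holE_apply, (M.aff_mul γ δ).1, (M.aff_mul γ δ).2,
          Matrix.mulVec_add, Matrix.mulVec_mulVec, add_assoc] }
  cont := M.cont
  free := M.free
  proper := M.proper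
  cocompact := M.cocompact
  loc := (PiLp.homeomorph 2 (fun _ : Fin n => ℝ)).symm.isLocalHomeomorph.comp M.loc
  equivariant γ x := by
    show (WithLp.linearEquiv 2 ℝ (Fin n → ℝ)).symm (M.dev (γ • x)) = M.holE γ _
    rw [M.holE_apply, M.equivariant]

/-- The group of a closed affine manifold is finitely generated. -/
instance fg : Group.FG M.Γ := M.toDev.fg

/-- **A closed affine manifold of positive dimension has finite coverings of arbitrarily large
degree.** -/
theorem exists_large_index (hn : 0 < n) (N : ℕ) :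
    ∃ H : Subgroup M.Γ, H.FiniteIndex ∧ N ≤ H.index := M.toDev.exists_large_index hn N

lemma cover_proper (H : Subgroup M.Γ) (K : Set M.X) (hK : IsCompact K) :
    {γ : H | ∃ x ∈ K, γ • x ∈ K}.Finite := by
  have h := M.proper K hK
  have : {γ : H | ∃ x ∈ K, γ • x ∈ K} = (Subtype.val) ⁻¹' {γ : M.Γ | ∃ x ∈ K, γ • x ∈ K} := rfl
  rw [this]
  exact h.preimage Subtype.val_injective.injOn

lemma cover_cocompact (H : Subgroup M.Γ) (hH : H.FiniteIndex) :
    ∃ K : Set M.X, IsCompact K ∧ ∀ x : M.X, ∃ γ : H, ∃ k ∈ K, γ • k = x := by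
  obtain ⟨K, hK, hcov⟩ := M.cocompact
  have : Finite (M.Γ ⧸ H) := H.finite_quotient_of_finiteIndex
  refine ⟨⋃ q : M.Γ ⧸ H, (fun x : M.X => (q.out)⁻¹ • x) '' K, isCompact_iUnion fun q =>
    hK.image (M.cont _), fun x => ?_⟩
  obtain ⟨γ, k, hk, hx⟩ := hcov x
  -- `γ⁻¹ = q.out * h`
  set q : M.Γ ⧸ H := (QuotientGroup.mk γ⁻¹ : M.Γ ⧸ H) with hq
  have h1 : (q.out)⁻¹ * γ⁻¹ ∈ H := by
    rw [← QuotientGroup.eq]
    rw [QuotientGroup.out_eq']
  have h2 : γ * q.out ∈ H := by
    have := H.inv_mem h1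
    simpa using this
  refine ⟨⟨γ * q.out, h2⟩, (q.out)⁻¹ • k, mem_iUnion.2 ⟨q, ⟨k, hk, rfl⟩⟩, ?_⟩
  show (γ * q.out) • ((q.out)⁻¹ • k) = x
  rw [smul_smul, mul_assoc, mul_inv_cancel, mul_one, hx]

lemma cover_free (H : Subgroup M.Γ) (γ : H) (x : M.X) (h : γ • x = x) :
    γ = 1 := Subtype.ext (M.free γ.1 x h)

/-- The finite covering `H \ X` of `Γ \ X` that belongs to a subgroup `H` of finite index. -/
def cover (H : Subgroup M.Γ) (hH : H.FiniteIndex) : AffineManifold n where
  X := M.X
  Γ := H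
  dev := M.dev
  lin := fun γ => M.lin γ
  trans := fun γ => M.trans γ
  cont γ := M.cont γ
  free := M.cover_free H
  proper := M.cover_proper H
  cocompact := M.cover_cocompact H hH
  loc := M.loc
  equivariant γ x := M.equivariant γ x

end AffineManifold

end Pool.Agent.TH711.SV
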