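import Pool.Agent.TH711.SV.Cov

/-!
# The simplicial volume of closed affine manifolds and finite coverings
-/

set_option autoImplicit false

open Set Filter Topology

namespace Pool.Agent.TH711.SV

variable {m : ℕ}

namespace AffineManifold

instance {n : ℕ} (M : AffineManifold n) : ContinuousConstSMul M.Γ M.X := ⟨M.cont⟩

/-- The manifold is oriented by the developing map: the linear parts of the holonomy have positive
determinant. (A closed affine manifold is orientable if and only if it has this property.) -/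
def Oriented {n : ℕ} (M : AffineManifold n) : Prop :=
  ∀ γ : M.Γ, 0 < (M.lin γ).det

/-- The simplicial volume of a closed oriented affine manifold: the infimum of `∑ |a_i|` over the
real singular cycles `∑ a_i σ_i` that represent the fundamental class. -/
noncomputable def simplicialVolume (M : AffineManifold (m + 1)) : ℝ :=
  sInf (l1 '' {c : Chain M.X (m + 1) | IsFundamental M.Γ M.dev c})

variable (M : AffineManifold (m + 1))

lemma simplicialVolume_nonneg : 0 ≤ M.simplicialVolume := by
  refine Real.sInf_nonneg ?_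
  rintro r ⟨c, -, rfl⟩
  exact l1_nonneg c

lemma simplicialVolume_le {c : Chain M.X (m + 1)} (hc : IsFundamental M.Γ M.dev c) :
    M.simplicialVolume ≤ l1 c := by
  refine csInf_le ⟨0, ?_⟩ ⟨c, hc, rfl⟩
  rintro r ⟨c, -, rfl⟩
  exact l1_nonneg c

lemma Oriented.cover {n : ℕ} {M : AffineManifold n} (hM : M.Oriented) (H : Subgroup M.Γ)
    (hH : H.FiniteIndex) : (M.cover H hH).Oriented := fun γ => hM γ.1

/-- **The simplicial volume is multiplicative for finite coverings.** -/
theorem simplicialVolume_cover (hM : M.Oriented) (H : Subgroup M.Γ) (hH : H.FiniteIndex) :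
    (M.cover H hH).simplicialVolume = H.index * M.simplicialVolume := by
  classical
  have : Finite (M.Γ ⧸ H) := H.finite_quotient_of_finiteIndex
  let _ : Fintype (M.Γ ⧸ H) := Fintype.ofFinite _
  have hd : (Fintype.card (M.Γ ⧸ H) : ℝ) = H.index := by
    rw [Subgroup.index, Nat.card_eq_fintype_card]
  have hpos : (0 : ℝ) < H.index := by
    exact_mod_cast Nat.pos_of_ne_zero hH.index_ne_zero
  have htr : ∀ c : Chain M.X (m + 1), IsFundamental M.Γ M.dev c →
      IsFundamental H M.dev (transfer H c) := fun c hc => fund_transfer H M.proper hc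
  have hpu : ∀ c : Chain M.X (m + 1), IsFundamental H M.dev c →
      IsFundamental M.Γ M.dev (((Fintype.card (M.Γ ⧸ H) : ℝ)⁻¹) • c) := fun c hc =>
    fund_push H M.equivariant hM hc
  by_cases hne : ∃ c : Chain M.X (m + 1), IsFundamental M.Γ M.dev c
  · obtain ⟨c0, hc0⟩ := hne
    apply le_antisymm
    · have h1 : (M.cover H hH).simplicialVolume / H.index ≤ M.simplicialVolume := by
        refine le_csInf ⟨_, c0, hc0, rfl⟩ ?_
        rintro r ⟨c, hc, rfl⟩
        rw [div_le_iff₀ hpos]
        have h2 : (M.cover H hH).simplicialVolume ≤ l1 (transfer H c) :=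
          (M.cover H hH).simplicialVolume_le (htr c hc)
        have h3 := l1_transfer H c
        rw [hd] at h3
        linarith [h2.trans h3, mul_comm (l1 c) (H.index : ℝ)]
      rw [div_le_iff₀ hpos] at h1
      linarith [mul_comm M.simplicialVolume (H.index : ℝ)]
    · have hsv : (M.cover H hH).simplicialVolume =
          sInf (l1 '' {c : Chain M.X (m + 1) | IsFundamental H M.dev c}) := rfl
      rw [hsv]
      refine le_csInf ⟨_, transfer H c0, htr c0 hc0, rfl⟩ ?_
      rintro r ⟨c, hc, rfl⟩
      have h1 := M.simplicialVolume_le (hpu c hc)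
      rw [l1_smul, hd, abs_of_pos (inv_pos.2 hpos)] at h1
      have h2 := mul_le_mul_of_nonneg_left h1 hpos.le
      rwa [← mul_assoc, mul_inv_cancel₀ hpos.ne', one_mul] at h2
  · have h1 : M.simplicialVolume = 0 := by
      have : {c : Chain M.X (m + 1) | IsFundamental M.Γ M.dev c} = ∅ := by
        ext c
        simp only [mem_ofPred_eq, mem_empty_iff_false, iff_false]
        exact fun hc => hne ⟨c, hc⟩
      rw [simplicialVolume, this, image_empty, Real.sInf_empty]
    have h2 : (M.cover H hH).simplicialVolume = 0 := by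
      have : {c : Chain (M.cover H hH).X (m + 1) |
          IsFundamental (M.cover H hH).Γ (M.cover H hH).dev c} = ∅ := by
        ext c
        simp only [mem_ofPred_eq, mem_empty_iff_false, iff_false]
        exact fun hc => hne ⟨_, hpu c hc⟩
      rw [simplicialVolume, this, image_empty, Real.sInf_empty]
    rw [h1, h2, mul_zero]

lemma rank_cover (H : Subgroup M.Γ) (hH : H.FiniteIndex) :
    Group.rank (M.cover H hH).Γ ≤ H.index * Group.rank M.Γ :=
  Subgroup.rank_le_index_mul_rank H

/-- The main argument: a multiplicative invariant that is `o(size)` vanishes. -/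
theorem eq_zero_of_sublinear {C P : AffineManifold (m + 1) → Prop}
    (hO : ∀ M, C M → M.Oriented)
    (hC : ∀ M, C M → ∀ (H : Subgroup M.Γ) (hH : H.FiniteIndex), C (M.cover H hH))
    (hP : ∀ M, C M → ∃ H₀ : Subgroup M.Γ, H₀.FiniteIndex ∧
      ∀ (H : Subgroup M.Γ) (hH : H.FiniteIndex), H ≤ H₀ → P (M.cover H hH))
    {size : AffineManifold (m + 1) → ℝ}
    (hsize : ∀ M, C M → ∀ (H : Subgroup M.Γ) (hH : H.FiniteIndex),
      size (M.cover H hH) ≤ H.index * size M)
    (h : ∀ ε : ℝ, 0 < ε → ∃ B : ℝ, ∀ M, C M → P M → M.simplicialVolume ≤ ε * size M + B)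
    (M : AffineManifold (m + 1)) (hM : C M) : M.simplicialVolume = 0 := by
  refine le_antisymm ?_ M.simplicialVolume_nonneg
  obtain ⟨H₀, hH₀, hH₀P⟩ := hP M hM
  -- the inequality `‖M‖ ≤ ε size(M) + B / N`
  have key : ∀ ε : ℝ, 0 < ε → M.simplicialVolume ≤ ε * size M := by
    intro ε hε
    obtain ⟨B, hB⟩ := h ε hε
    refine le_of_forall_pos_le_add fun δ hδ => ?_
    obtain ⟨N, hN⟩ := exists_nat_gt (|B| / δ)
    obtain ⟨K, hK, hKN⟩ := M.exists_large_index (Nat.succ_pos m) (N + 1)
    have hHf : (K ⊓ H₀).FiniteIndex := inferInstance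
    have h1 := hB (M.cover (K ⊓ H₀) hHf) (hC M hM _ _) (hH₀P _ _ inf_le_right)
    rw [M.simplicialVolume_cover (hO M hM)] at h1
    have h2 := hsize M hM (K ⊓ H₀) hHf
    have hidx : N + 1 ≤ (K ⊓ H₀).index := by
      refine hKN.trans ?_
      exact Nat.le_of_dvd (Nat.pos_of_ne_zero hHf.index_ne_zero)
        (Subgroup.index_dvd_of_le inf_le_left)
    have hidx' : (N : ℝ) + 1 ≤ ((K ⊓ H₀).index : ℝ) := by exact_mod_cast hidx
    have hpos : (0 : ℝ) < ((K ⊓ H₀).index : ℝ) := by
      have : (0 : ℝ) ≤ N := Nat.cast_nonneg N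
      linarith
    have h3 : ((K ⊓ H₀).index : ℝ) * M.simplicialVolume ≤
        ((K ⊓ H₀).index : ℝ) * (ε * size M) + |B| := by
      have := mul_le_mul_of_nonneg_left h2 hε.le
      nlinarith [le_abs_self B, this, h1]
    have h4 : |B| ≤ ((K ⊓ H₀).index : ℝ) * δ := by
      have h5 : |B| < N * δ := by rwa [div_lt_iff₀ hδ] at hN
      nlinarith
    have h6 : ((K ⊓ H₀).index : ℝ) * M.simplicialVolume ≤
        ((K ⊓ H₀).index : ℝ) * (ε * size M + δ) := by
      rw [mul_add]; linarith
    exact le_of_mul_le_mul_left h6 hpos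
  refine le_of_forall_pos_le_add fun δ hδ => ?_
  have h1 := key (δ / (|size M| + 1)) (by positivity)
  have h2 : δ / (|size M| + 1) * size M ≤ δ := by
    have h3 : δ / (|size M| + 1) * size M ≤ δ / (|size M| + 1) * (|size M| + 1) :=
      mul_le_mul_of_nonneg_left (by linarith [le_abs_self (size M)]) (by positivity)
    have h4 : δ / (|size M| + 1) * (|size M| + 1) = δ := div_mul_cancel₀ _ (by positivity)
    linarith
  linarith

/-- The integral simplicial volume of a closed oriented affine manifold: the least number of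
singular simplices, counted with multiplicities, in an integral cycle that represents the
fundamental class. -/
noncomputable def integralSimplicialVolume (M : AffineManifold (m + 1)) : ℝ :=
  sInf (l1 '' {c : Chain M.X (m + 1) | IsFundamental M.Γ M.dev c ∧ IsIntegralChain c})

lemma integralSimplicialVolume_nonneg : 0 ≤ M.integralSimplicialVolume := by
  refine Real.sInf_nonneg ?_
  rintro r ⟨c, -, rfl⟩
  exact l1_nonneg c

lemma isIntegralChain_act {γ : M.Γ} {k : ℕ} {c : Chain M.X k} (hc : IsIntegralChain c) :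
    IsIntegralChain (SV.act γ c) := by
  intro σ
  obtain ⟨z, hz⟩ := hc (γ⁻¹ • σ)
  refine ⟨z, ?_⟩
  have h1 : σ = γ • (γ⁻¹ • σ) := (smul_inv_smul γ σ).symm
  rw [h1, SV.act, Finsupp.lmapDomain_apply, Finsupp.mapDomain_apply (MulAction.injective γ), hz]

lemma isIntegralChain_transfer (H : Subgroup M.Γ) [Fintype (M.Γ ⧸ H)] {k : ℕ} {c : Chain M.X k}
    (hc : IsIntegralChain c) : IsIntegralChain (transfer H c) := by
  intro σ
  rw [transfer_apply, Finsupp.finsetSum_apply]
  have h : ∀ q : M.Γ ⧸ H, ∃ z : ℤ, (SV.act (q.out)⁻¹ c) σ = z := fun q =>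
    isIntegralChain_act M hc σ
  choose z hz using h
  exact ⟨∑ q, z q, by push_cast; exact Finset.sum_congr rfl fun q _ => hz q⟩

/-- The manifold has an integral fundamental cycle. (All closed oriented manifolds have one.) -/
def HasIntegralCycle (M : AffineManifold (m + 1)) : Prop :=
  ∃ c : Chain M.X (m + 1), IsFundamental M.Γ M.dev c ∧ IsIntegralChain c

lemma integralSimplicialVolume_cover (hM : M.HasIntegralCycle) (H : Subgroup M.Γ)
    (hH : H.FiniteIndex) : (M.cover H hH).integralSimplicialVolume ≤
      H.index * M.integralSimplicialVolume := by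
  classical
  have : Finite (M.Γ ⧸ H) := H.finite_quotient_of_finiteIndex
  let _ : Fintype (M.Γ ⧸ H) := Fintype.ofFinite _
  have hd : (Fintype.card (M.Γ ⧸ H) : ℝ) = H.index := by
    rw [Subgroup.index, Nat.card_eq_fintype_card]
  have hpos : (0 : ℝ) < H.index := by
    exact_mod_cast Nat.pos_of_ne_zero hH.index_ne_zero
  obtain ⟨c0, hc0⟩ := hM
  have h1 : (M.cover H hH).integralSimplicialVolume / H.index ≤ M.integralSimplicialVolume := by
    refine le_csInf ⟨_, c0, hc0, rfl⟩ ?_
    rintro r ⟨c, hc, rfl⟩
    rw [div_le_iff₀ hpos]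
    have hsv : (M.cover H hH).integralSimplicialVolume =
        sInf (l1 '' {c : Chain M.X (m + 1) | IsFundamental H M.dev c ∧ IsIntegralChain c}) := rfl
    have h2 : (M.cover H hH).integralSimplicialVolume ≤ l1 (transfer H c) := by
      rw [hsv]
      refine csInf_le ⟨0, ?_⟩ ⟨transfer H c, ⟨fund_transfer H M.proper hc.1,
        isIntegralChain_transfer M H hc.2⟩, rfl⟩
      rintro r ⟨c, -, rfl⟩
      exact l1_nonneg c
    have h3 := l1_transfer H c
    rw [hd] at h3
    linarith [h2.trans h3, mul_comm (l1 c) (H.index : ℝ)]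
  rw [div_le_iff₀ hpos] at h1
  linarith [mul_comm M.integralSimplicialVolume (H.index : ℝ)]

lemma simplicialVolume_le_integral (hM : M.HasIntegralCycle) :
    M.simplicialVolume ≤ M.integralSimplicialVolume := by
  obtain ⟨c0, hc0⟩ := hM
  refine le_csInf ⟨_, c0, hc0, rfl⟩ ?_
  rintro r ⟨c, hc, rfl⟩
  exact M.simplicialVolume_le hc.1

lemma HasIntegralCycle.cover {M : AffineManifold (m + 1)} (hM : M.HasIntegralCycle)
    (H : Subgroup M.Γ) (hH : H.FiniteIndex) : (M.cover H hH).HasIntegralCycle := by
  have : Finite (M.Γ ⧸ H) := H.finite_quotient_of_finiteIndex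
  let _ : Fintype (M.Γ ⧸ H) := Fintype.ofFinite _
  obtain ⟨c, h1, h2⟩ := hM
  have h3 : IsFundamental H M.dev (transfer H c) ∧ IsIntegralChain (transfer H c) :=
    ⟨fund_transfer H M.proper h1, isIntegralChain_transfer M H h2⟩
  exact ⟨_, h3⟩

/-- A class of closed oriented affine manifolds (which have integral fundamental cycles) that is
closed under finite coverings. -/
structure IsCoveringClosed (C : AffineManifold (m + 1) → Prop) : Prop where
  /-- the manifolds are oriented by their developing maps -/
  oriented : ∀ M, C M → M.Oriented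
  /-- they have integral fundamental cycles -/
  cycle : ∀ M, C M → M.HasIntegralCycle
  /-- the class is closed under finite coverings -/
  cover : ∀ M, C M → ∀ (H : Subgroup M.Γ) (hH : H.FiniteIndex), C (M.cover H hH)

/-- All sufficiently deep finite coverings of each member of the class `C` have the property `P`. -/
def HoldsDeep (C P : AffineManifold (m + 1) → Prop) : Prop :=
  ∀ M, C M → ∃ H₀ : Subgroup M.Γ, H₀.FiniteIndex ∧
    ∀ (H : Subgroup M.Γ) (hH : H.FiniteIndex), H ≤ H₀ → P (M.cover H hH)

/-- The function `size` is nonnegative and grows at most linearly in finite coverings. -/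
def GrowsLinearly (C : AffineManifold (m + 1) → Prop) (size : AffineManifold (m + 1) → ℝ) : Prop :=
  ∀ M, C M → 0 ≤ size M ∧ ∀ (H : Subgroup M.Γ) (hH : H.FiniteIndex),
    size (M.cover H hH) ≤ H.index * size M

/-- On the members of `C` with property `P` the simplicial volume is at most `ε size(M) + B(ε)`,
for every `ε > 0`. -/
def IsSublinear (C P : AffineManifold (m + 1) → Prop) (size : AffineManifold (m + 1) → ℝ) : Prop :=
  ∀ ε : ℝ, 0 < ε → ∃ B : ℝ, ∀ M, C M → P M → M.simplicialVolume ≤ ε * size M + B

end AffineManifold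

end Pool.Agent.TH711.SV
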